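import Mathlib

/-!
# Maximal volume

Among finitely many vectors there is a basis of their span in which all of them have coefficients
of absolute value at most `1`.
-/

set_option autoImplicit false

namespace Pool.PATHL

open Finset

theorem max_vol {ι V : Type} [Finite ι] [AddCommGroup V] [Module ℝ V] (r : ι → V) :
    ∃ (κ : Type) (_ : Fintype κ) (g : κ → ι), LinearIndependent ℝ (r ∘ g) ∧
      ∀ t, ∃ c : κ → ℝ, (∀ k, |c k| ≤ 1) ∧ r t = ∑ k, c k • r (g k) := by
  classical
  let W := Submodule.span ℝ (Set.range r)
  let r' : ι → W := fun i => ⟨r i, Submodule.subset_span ⟨i, rfl⟩⟩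
  have htop : Submodule.span ℝ (Set.range r') = ⊤ := by
    rw [eq_top_iff]
    rintro ⟨x, hx⟩ -
    induction hx using Submodule.span_induction with
    | mem x hx =>
      obtain ⟨i, rfl⟩ := hx
      exact Submodule.subset_span ⟨i, rfl⟩
    | zero => exact Submodule.zero_mem _
    | add x y hx hy h1 h2 =>
      have := Submodule.add_mem _ h1 h2
      exact this
    | smul a x hx h1 =>
      have := Submodule.smul_mem _ a h1
      exact this
  obtain ⟨κ, a, ha, hspan, hli⟩ := exists_linearIndependent' ℝ r'
  have : Finite κ := Finite.of_injective a ha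
  have : Fintype κ := Fintype.ofFinite κ
  have : Fintype ι := Fintype.ofFinite ι
  let b : Module.Basis κ ℝ W := Module.Basis.mk hli (by rw [hspan, htop])
  have hne : (univ : Finset (κ → ι)).Nonempty := ⟨a, mem_univ _⟩
  obtain ⟨g, -, hg⟩ := Finset.exists_max_image univ (fun g : κ → ι => |b.det (r' ∘ g)|) hne
  have h1 : b.det (r' ∘ a) = 1 := by
    have : (r' ∘ a) = b := by
      ext k
      simp [b]
    rw [this]
    exact b.det_self
  have h2 : 1 ≤ |b.det (r' ∘ g)| := by
    have := hg a (mem_univ _)
    simp only [h1, abs_one] at this
    exact this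
  have h3 : IsUnit (b.det (r' ∘ g)) := by
    rw [isUnit_iff_ne_zero]
    intro h
    rw [h, abs_zero] at h2
    linarith
  obtain ⟨hli', hsp'⟩ := (b.is_basis_iff_det).mpr h3
  refine ⟨κ, inferInstance, g, ?_, fun t => ?_⟩
  · have := hli'.map' W.subtype (Submodule.ker_subtype W)
    exact this
  · have hm : r' t ∈ Submodule.span ℝ (Set.range (r' ∘ g)) := by rw [hsp']; trivial
    obtain ⟨c, hc⟩ := (Submodule.mem_span_range_iff_exists_fun ℝ).mp hm
    refine ⟨c, fun k => ?_, ?_⟩
    · have h4 : b.det (Function.update (r' ∘ g) k (r' t)) = c k * b.det (r' ∘ g) := by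
        rw [← hc]
        have h5 := (b.det).toMultilinearMap.map_update_sum (t := univ) (i := k)
          (g := fun i => c i • (r' ∘ g) i) (m := r' ∘ g)
        have h6 : b.det (Function.update (r' ∘ g) k (∑ i, c i • (r' ∘ g) i)) =
            ∑ i, b.det (Function.update (r' ∘ g) k (c i • (r' ∘ g) i)) := h5
        rw [h6, Finset.sum_eq_single k]
        · rw [AlternatingMap.map_update_smul, Function.update_eq_self, smul_eq_mul]
        · intro i _ hik
          rw [AlternatingMap.map_update_smul, AlternatingMap.map_update_self _ _ (Ne.symm hik),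
            smul_zero]
        · intro h
          exact absurd (mem_univ _) h
      have h7 : Function.update (r' ∘ g) k (r' t) = r' ∘ Function.update g k t := by
        ext i
        by_cases hik : i = k
        · subst hik; simp
        · simp [Function.update_of_ne hik]
      have h8 := hg (Function.update g k t) (mem_univ _)
      rw [← h7, h4, abs_mul] at h8
      have h9 : 0 < |b.det (r' ∘ g)| := by linarith
      exact le_of_mul_le_mul_right (by linarith) h9
    · have h5 := congrArg (Submodule.subtype W) hc
      simp only [map_sum, map_smul, Submodule.subtype_apply, Function.comp_apply] at h5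
      exact h5.symm

end Pool.PATHL
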