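import Pool.Agent.H34.PATH.MaxVol

/-!
# Paths of hyperplanes with many linear fields are rational

A path of hyperplanes in `ℝ ^ (d + 1)`, given at finitely many times, is up to a small error a
polynomial path of degree at most `D`, provided that there are `2 d - D` independent vector fields,
linear in time, which are almost tangent to the hyperplanes, and these fields span the hyperplanes.
There is no bound on the slopes.
-/

set_option autoImplicit false

namespace Pool.PATHL

open Finset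

/-- A field: position and velocity along the base, position and velocity of the last coordinate. -/
abbrev Fld (d : ℕ) := (Fin d → ℝ) × (Fin d → ℝ) × ℝ × ℝ

/-- The value at time `τ` of the covector `(G, 1)` on the field `X`. -/
noncomputable def vl {d : ℕ} (G : Fin d → ℝ) (τ : ℝ) (X : Fld d) : ℝ :=
  ∑ l, G l * (X.1 l + τ * X.2.1 l) + X.2.2.1 + τ * X.2.2.2

/-- The product of `X - τ k'` over all `k' ≠ k`. -/
noncomputable def om {κ : Type} [Fintype κ] [DecidableEq κ] (τ : κ → ℝ) (k : κ) :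
    Polynomial ℝ :=
  ∏ k' ∈ univ.erase k, (Polynomial.X - Polynomial.C (τ k'))

lemma om_monic {κ : Type} [Fintype κ] [DecidableEq κ] (τ : κ → ℝ) (k : κ) :
    (om τ k).Monic :=
  Polynomial.monic_prod_of_monic _ _ fun k' _ => Polynomial.monic_X_sub_C (τ k')

lemma om_degree {κ : Type} [Fintype κ] [DecidableEq κ] (τ : κ → ℝ) (k : κ) :
    (om τ k).degree = ((Fintype.card κ - 1 : ℕ) : WithBot ℕ) := by
  rw [Polynomial.degree_eq_natDegree (om_monic τ k).ne_zero]
  unfold om
  rw [Polynomial.natDegree_prod_of_monic _ _ fun k' _ => Polynomial.monic_X_sub_C (τ k')]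
  simp [Finset.card_erase_of_mem]

/-- Interpolation with the top coefficient removed. -/
noncomputable def itp {κ : Type} [Fintype κ] [DecidableEq κ] (τ w : κ → ℝ) : Polynomial ℝ :=
  ∑ k, Polynomial.C (w k) * (om τ k - Polynomial.X ^ (Fintype.card κ - 1))

lemma itp_degree {κ : Type} [Fintype κ] [DecidableEq κ] (τ w : κ → ℝ) :
    (itp τ w).degree < ((Fintype.card κ - 1 : ℕ) : WithBot ℕ) ∨ itp τ w = 0 := by
  rcases isEmpty_or_nonempty κ with he | ⟨⟨k₀⟩⟩
  · right
    unfold itp
    simp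
  · left
    unfold itp
    refine lt_of_le_of_lt (Polynomial.degree_sum_le _ _) ?_
    rw [Finset.sup_lt_iff]
    · intro k _
      have h1 : (om τ k - Polynomial.X ^ (Fintype.card κ - 1) : Polynomial ℝ).degree <
          (om τ k).degree := by
        refine Polynomial.degree_sub_lt_left ?_ (om_monic τ k).ne_zero ?_
        · rw [om_degree, Polynomial.degree_X_pow]
        · rw [(om_monic τ k).leadingCoeff, Polynomial.leadingCoeff_X_pow]
      rw [om_degree] at h1
      refine lt_of_le_of_lt ((Polynomial.degree_mul_le _ _).trans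
        (add_le_add Polynomial.degree_C_le le_rfl)) ?_
      rwa [zero_add]
    · exact WithBot.bot_lt_coe _

lemma itp_natDegree {κ : Type} [Fintype κ] [DecidableEq κ] (τ w : κ → ℝ) (D : ℕ)
    (h : Fintype.card κ ≤ D + 2) : (itp τ w).natDegree ≤ D := by
  rcases itp_degree τ w with h1 | h1
  · by_cases h0 : itp τ w = 0
    · rw [h0]; simp
    · have h2 := (Polynomial.natDegree_lt_iff_degree_lt h0).mpr h1
      omega
  · rw [h1]; simp

lemma om_eval {κ : Type} [Fintype κ] [DecidableEq κ] (τ : κ → ℝ) (k : κ) (t : ℝ) :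
    (t - τ k) * (om τ k).eval t = ∏ k', (t - τ k') := by
  unfold om
  rw [Polynomial.eval_prod]
  simp only [Polynomial.eval_sub, Polynomial.eval_X, Polynomial.eval_C]
  exact Finset.mul_prod_erase _ (fun k' => t - τ k') (mem_univ k)

lemma itp_eval {κ : Type} [Fintype κ] [DecidableEq κ] (τ w : κ → ℝ) (t : ℝ)
    (ht : ∀ k, t - τ k ≠ 0) :
    (itp τ w).eval t = (∏ k, (t - τ k)) * ∑ k, w k / (t - τ k) -
      (∑ k, w k) * t ^ (Fintype.card κ - 1) := by
  unfold itp
  rw [Polynomial.eval_finsetSum, Finset.mul_sum, Finset.sum_mul, ← Finset.sum_sub_distrib]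
  refine Finset.sum_congr rfl fun k _ => ?_
  rw [Polynomial.eval_mul, Polynomial.eval_C, Polynomial.eval_sub, Polynomial.eval_pow,
    Polynomial.eval_X, ← om_eval τ k t]
  have := ht k
  field_simp

lemma abs_sum_mul_le {κ : Type} [Fintype κ] (a b : κ → ℝ) (A B : ℝ) (hA : 0 ≤ A)
    (ha : ∀ k, |a k| ≤ A) (hb : ∀ k, |b k| ≤ B) :
    |∑ k, a k * b k| ≤ Fintype.card κ * (A * B) := by
  refine (Finset.abs_sum_le_sum_abs _ _).trans ?_
  have : ∀ k ∈ (univ : Finset κ), |a k * b k| ≤ A * B := fun k _ => by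
    rw [abs_mul]
    exact mul_le_mul (ha k) (hb k) (abs_nonneg _) hA
  refine (Finset.sum_le_card_nsmul _ _ _ this).trans ?_
  rw [Finset.card_univ, nsmul_eq_mul]

/-- **Path lemma.** -/
theorem path_lemma {d D : ℕ} (T : Finset ℝ) (hT : ∀ τ ∈ T, |τ| ≤ 1) (G : ℝ → Fin d → ℝ)
    (M : Set (Fld d)) (ε K : ℝ) (hε : 0 ≤ ε) (hK : 0 ≤ K)
    (hom : ∀ X ∈ M, ∀ l, |X.2.1 l| ≤ 1)
    (hval : ∀ X ∈ M, ∀ τ ∈ T, |vl (G τ) τ X| ≤ ε)
    (hA1 : ∀ τ ∈ T, ∀ (φ : Fin d → ℝ) (δ : ℝ),
      (∀ X ∈ M, |∑ l, φ l * (X.1 l + τ * X.2.1 l)| ≤ δ) → ∀ l, |φ l| ≤ K * δ)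
    (u : Fin D → (Fin d → ℝ) × (Fin d → ℝ))
    (hA2 : ∀ (φ ψ : Fin d → ℝ) (δ : ℝ),
      (∀ X ∈ M, |∑ l, φ l * X.1 l + ∑ l, ψ l * X.2.1 l| ≤ δ) →
      (∀ i, ∑ l, φ l * (u i).1 l + ∑ l, ψ l * (u i).2 l = 0) →
      ∀ l, |φ l| ≤ K * δ ∧ |ψ l| ≤ K * δ) :
    ∃ S : Finset ℝ, S ⊆ T ∧ S.card ≤ D + 2 ∧ ∀ τs ∈ T, ∀ h : ℝ, 0 < h → h ≤ 1 →
      (∀ s ∈ S, h ≤ |τs - s|) →
      ∃ (PN : Polynomial ℝ) (PW : Fin d → Polynomial ℝ), PN.natDegree ≤ D ∧
        (∀ l, (PW l).natDegree ≤ D) ∧ h ^ (D + 2) ≤ |PN.eval τs| ∧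
        ∀ τ ∈ T, (∀ s ∈ S, h ≤ |τ - s|) → ∀ l,
          |PN.eval τ * G τ l - (PW l).eval τ| ≤
            K * ε * (2 ^ (D + 2) * (4 * (D + 2) / h + 2 * d * K * (D + 3)) + 2 * (D + 3)) := by
  classical
  let r : {x // x ∈ T} → (Fin D → ℝ) × ℝ × ℝ := fun τ =>
    (fun i => ∑ l, G τ l * (u i).1 l + ∑ l, (τ : ℝ) * G τ l * (u i).2 l, 1, (τ : ℝ))
  obtain ⟨κ, _, g, hli, hc⟩ := max_vol r
  have hcard : Fintype.card κ ≤ D + 2 := by
    have h1 := hli.fintype_card_le_finrank
    simpa using h1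
  have hcard' : (Fintype.card κ : ℝ) ≤ D + 2 := by exact_mod_cast hcard
  let tn : κ → ℝ := fun k => (g k : ℝ)
  have htn : ∀ k, tn k ∈ T := fun k => (g k).2
  refine ⟨univ.image tn, ?_, ?_, ?_⟩
  · intro x hx
    obtain ⟨k, -, rfl⟩ := Finset.mem_image.mp hx
    exact htn k
  · exact (Finset.card_image_le).trans (by rw [Finset.card_univ]; exact hcard)
  intro τs hτs h hh hh1 hsep
  obtain ⟨c, hc1, hcr⟩ := hc ⟨τs, hτs⟩
  have hsum1 : ∑ k, c k = 1 := by
    have := congrArg (fun v => v.2.1) hcr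
    simp only [r, Prod.snd_sum, Prod.fst_sum, Prod.smul_snd, Prod.smul_fst, smul_eq_mul,
      mul_one] at this
    exact this.symm
  have hsumt : ∑ k, c k * tn k = τs := by
    have := congrArg (fun v => v.2.2) hcr
    simp only [r, Prod.snd_sum, Prod.smul_snd, smul_eq_mul] at this
    exact this.symm
  have hu : ∀ i, ∑ l, G τs l * (u i).1 l + ∑ l, τs * G τs l * (u i).2 l =
      ∑ k, c k * (∑ l, G (tn k) l * (u i).1 l + ∑ l, tn k * G (tn k) l * (u i).2 l) := by
    intro i
    have := congrArg (fun v => v.1 i) hcr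
    simp only [r, Prod.fst_sum, Prod.smul_fst, Finset.sum_apply, Pi.smul_apply,
      smul_eq_mul] at this
    exact this
  have hsepk : ∀ k, h ≤ |τs - tn k| := fun k =>
    hsep _ (Finset.mem_image_of_mem _ (mem_univ k))
  -- the two error covectors
  obtain ⟨φ, hφ⟩ : ∃ φ : Fin d → ℝ, φ = fun l => G τs l - ∑ k, c k * G (tn k) l := ⟨_, rfl⟩
  obtain ⟨ψ, hψ⟩ : ∃ ψ : Fin d → ℝ, ψ = fun l => τs * G τs l - ∑ k, c k * (tn k * G (tn k) l) :=
    ⟨_, rfl⟩
  have hid : ∀ a b : Fin d → ℝ, ∑ l, φ l * a l + ∑ l, ψ l * b l =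
      (∑ l, G τs l * a l + ∑ l, τs * G τs l * b l) -
        ∑ k, c k * (∑ l, G (tn k) l * a l + ∑ l, tn k * G (tn k) l * b l) := by
    intro a b
    have e1 : ∑ k, c k * (∑ l, G (tn k) l * a l + ∑ l, tn k * G (tn k) l * b l) =
        ∑ l, (∑ k, c k * G (tn k) l) * a l + ∑ l, (∑ k, c k * (tn k * G (tn k) l)) * b l := by
      simp_rw [mul_add, Finset.sum_add_distrib, Finset.mul_sum, Finset.sum_mul]
      congr 1
      · rw [Finset.sum_comm]
        refine Finset.sum_congr rfl fun l _ => Finset.sum_congr rfl fun k _ => ?_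
        ring
      · rw [Finset.sum_comm]
        refine Finset.sum_congr rfl fun l _ => Finset.sum_congr rfl fun k _ => ?_
        ring
    rw [e1, hφ, hψ]
    simp only [sub_mul, Finset.sum_sub_distrib]
    ring
  have hpair := hA2 φ ψ ((D + 3) * ε) (by
    intro X hX
    have e2 : ∀ t : ℝ, ∑ l, G t l * X.1 l + ∑ l, t * G t l * X.2.1 l =
        vl (G t) t X - X.2.2.1 - t * X.2.2.2 := by
      intro t
      unfold vl
      have : ∑ l, G t l * (X.1 l + t * X.2.1 l) =
          ∑ l, G t l * X.1 l + ∑ l, t * G t l * X.2.1 l := by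
        rw [← Finset.sum_add_distrib]
        exact Finset.sum_congr rfl fun l _ => by ring
      rw [this]
      ring
    rw [hid, e2]
    have e3 : ∑ k, c k * (∑ l, G (tn k) l * X.1 l + ∑ l, tn k * G (tn k) l * X.2.1 l) =
        ∑ k, c k * vl (G (tn k)) (tn k) X - X.2.2.1 - τs * X.2.2.2 := by
      have : ∀ k, c k * (∑ l, G (tn k) l * X.1 l + ∑ l, tn k * G (tn k) l * X.2.1 l) =
          c k * vl (G (tn k)) (tn k) X - c k * X.2.2.1 - (c k * tn k) * X.2.2.2 := by
        intro k
        rw [e2]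
        ring
      simp_rw [this, Finset.sum_sub_distrib, ← Finset.sum_mul, hsum1, hsumt]
      ring
    rw [e3]
    have e4 : vl (G τs) τs X - X.2.2.1 - τs * X.2.2.2 -
        (∑ k, c k * vl (G (tn k)) (tn k) X - X.2.2.1 - τs * X.2.2.2) =
        vl (G τs) τs X - ∑ k, c k * vl (G (tn k)) (tn k) X := by ring
    rw [e4]
    have e5 := abs_sum_mul_le c (fun k => vl (G (tn k)) (tn k) X) 1 ε zero_le_one hc1
      (fun k => hval X hX _ (htn k))
    have e6 := hval X hX τs hτs
    have e7 := abs_sub (vl (G τs) τs X) (∑ k, c k * vl (G (tn k)) (tn k) X)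
    nlinarith [mul_le_mul_of_nonneg_right hcard' hε]) (by
    intro i
    rw [hid, hu, sub_self])
  -- the weights
  obtain ⟨z, hz⟩ : ∃ z : κ → ℝ, z = fun k => (τs - tn k) * c k := ⟨_, rfl⟩
  have hz0 : ∑ k, z k = 0 := by
    rw [hz]
    have : ∀ k, (τs - tn k) * c k = τs * c k - c k * tn k := fun k => by ring
    simp_rw [this, Finset.sum_sub_distrib, ← Finset.mul_sum, hsum1, hsumt]
    ring
  have hz2 : ∀ k, |z k| ≤ 2 := by
    intro k
    rw [hz]
    simp only
    rw [abs_mul]
    have h1 := hT _ hτs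
    have h2 := hT _ (htn k)
    have h3 := abs_sub τs (tn k)
    have h4 := hc1 k
    nlinarith [abs_nonneg (τs - tn k), abs_nonneg (c k)]
  have hkap : ∀ l, ∑ k, z k * G (tn k) l = ψ l - τs * φ l := by
    intro l
    rw [hz, hφ, hψ]
    simp only
    have : ∀ k, (τs - tn k) * c k * G (tn k) l =
        τs * (c k * G (tn k) l) - c k * (tn k * G (tn k) l) := fun k => by ring
    simp_rw [this, Finset.sum_sub_distrib, ← Finset.mul_sum]
    ring
  have hkb : ∀ l, |∑ k, z k * G (tn k) l| ≤ 2 * (K * ((D + 3) * ε)) := by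
    intro l
    rw [hkap]
    obtain ⟨h1, h2⟩ := hpair l
    have h3 := abs_sub (ψ l) (τs * φ l)
    have h4 : |τs * φ l| ≤ K * ((D + 3) * ε) := by
      rw [abs_mul]
      have := hT _ hτs
      nlinarith [abs_nonneg (φ l), abs_nonneg τs]
    linarith
  have hne : ∀ k, τs - tn k ≠ 0 := fun k hk => by
    have := hsepk k
    rw [hk, abs_zero] at this
    linarith
  refine ⟨itp tn z, fun l => itp tn (fun k => z k * G (tn k) l), itp_natDegree _ _ _ hcard,
    fun l => itp_natDegree _ _ _ hcard, ?_, ?_⟩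
  · rw [itp_eval _ _ _ hne, hz0, zero_mul, sub_zero]
    have h1 : ∑ k, z k / (τs - tn k) = 1 := by
      rw [← hsum1]
      refine Finset.sum_congr rfl fun k _ => ?_
      rw [hz]
      have := hne k
      field_simp
    rw [h1, mul_one, Finset.abs_prod]
    calc h ^ (D + 2) ≤ h ^ Fintype.card κ := pow_le_pow_of_le_one hh.le hh1 hcard
      _ = ∏ _k : κ, h := by rw [Finset.prod_const, Finset.card_univ]
      _ ≤ ∏ k, |τs - tn k| := Finset.prod_le_prod (fun _ _ => hh.le) fun k _ => hsepk k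
  · intro τ hτ hsepτ l
    have hsk : ∀ k, h ≤ |τ - tn k| := fun k =>
      hsepτ _ (Finset.mem_image_of_mem _ (mem_univ k))
    have hne' : ∀ k, τ - tn k ≠ 0 := fun k hk => by
      have := hsk k
      rw [hk, abs_zero] at this
      linarith
    rw [itp_eval _ _ _ hne', itp_eval _ _ _ hne', hz0, zero_mul, sub_zero]
    -- the covector `h`
    obtain ⟨q, hq⟩ : ∃ q : κ → ℝ, q = fun k => z k / (τ - tn k) := ⟨_, rfl⟩
    have hqb : ∀ k, |q k| ≤ 2 / h := by
      intro k
      rw [hq]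
      simp only
      rw [abs_div]
      exact div_le_div₀ (by norm_num) (hz2 k) hh (hsk k)
    have hφ' := hA1 τ hτ (fun l => ∑ k, q k * G (tn k) l - (∑ k, q k) * G τ l)
      ((D + 2) * (2 / h * (2 * ε)) + d * (2 * (K * ((D + 3) * ε)))) (by
      intro X hX
      have e1 : ∑ l, (∑ k, q k * G (tn k) l - (∑ k, q k) * G τ l) * (X.1 l + τ * X.2.1 l) =
          ∑ k, q k * (vl (G (tn k)) (tn k) X - vl (G τ) τ X) +
            ∑ l, (∑ k, z k * G (tn k) l) * X.2.1 l := by
        have a1 : ∀ k, q k * (vl (G (tn k)) (tn k) X - vl (G τ) τ X) =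
            q k * (∑ l, G (tn k) l * (X.1 l + τ * X.2.1 l)) -
              q k * (∑ l, G τ l * (X.1 l + τ * X.2.1 l)) -
              z k * (∑ l, G (tn k) l * X.2.1 l) - z k * X.2.2.2 := by
          intro k
          have b1 : ∑ l, G (tn k) l * (X.1 l + tn k * X.2.1 l) =
              ∑ l, G (tn k) l * (X.1 l + τ * X.2.1 l) -
                (τ - tn k) * ∑ l, G (tn k) l * X.2.1 l := by
            rw [Finset.mul_sum, ← Finset.sum_sub_distrib]
            exact Finset.sum_congr rfl fun l _ => by ring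
          have b2 : z k = q k * (τ - tn k) := by
            rw [hq]
            have := hne' k
            field_simp
          unfold vl
          rw [b1, b2]
          ring
        simp_rw [a1, Finset.sum_sub_distrib]
        have a2 : ∑ k, z k * X.2.2.2 = 0 := by rw [← Finset.sum_mul, hz0, zero_mul]
        have a3 : ∑ k, z k * (∑ l, G (tn k) l * X.2.1 l) =
            ∑ l, (∑ k, z k * G (tn k) l) * X.2.1 l := by
          simp_rw [Finset.mul_sum, Finset.sum_mul]
          rw [Finset.sum_comm]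
          exact Finset.sum_congr rfl fun l _ => Finset.sum_congr rfl fun k _ => by ring
        have a4 : ∑ k, q k * (∑ l, G (tn k) l * (X.1 l + τ * X.2.1 l)) =
            ∑ l, (∑ k, q k * G (tn k) l) * (X.1 l + τ * X.2.1 l) := by
          simp_rw [Finset.mul_sum, Finset.sum_mul]
          rw [Finset.sum_comm]
          exact Finset.sum_congr rfl fun l _ => Finset.sum_congr rfl fun k _ => by ring
        have a5 : ∑ k, q k * (∑ l, G τ l * (X.1 l + τ * X.2.1 l)) =
            ∑ l, ((∑ k, q k) * G τ l) * (X.1 l + τ * X.2.1 l) := by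
          rw [← Finset.sum_mul, Finset.mul_sum]
          exact Finset.sum_congr rfl fun l _ => by ring
        rw [a2, a3, a4, a5]
        simp only [sub_mul, Finset.sum_sub_distrib]
        ring
      rw [e1]
      refine (abs_add_le _ _).trans (add_le_add ?_ ?_)
      · have b1 := abs_sum_mul_le q (fun k => vl (G (tn k)) (tn k) X - vl (G τ) τ X) (2 / h)
          (2 * ε) (by positivity) hqb (fun k => by
            have h1 := hval X hX _ (htn k)
            have h2 := hval X hX _ hτ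
            have h3 := abs_sub (vl (G (tn k)) (tn k) X) (vl (G τ) τ X)
            linarith)
        refine b1.trans ?_
        exact mul_le_mul_of_nonneg_right hcard' (by positivity)
      · have b1 := abs_sum_mul_le (fun l => ∑ k, z k * G (tn k) l) X.2.1
          (2 * (K * ((D + 3) * ε))) 1 (by positivity) hkb (hom X hX)
        rw [Fintype.card_fin, mul_one] at b1
        exact b1) l
    have hΩ : |∏ k, (τ - tn k)| ≤ 2 ^ (D + 2) := by
      rw [Finset.abs_prod]
      calc ∏ k, |τ - tn k| ≤ ∏ _k : κ, (2 : ℝ) :=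
            Finset.prod_le_prod (fun _ _ => abs_nonneg _) fun k _ => by
              have h1 := hT _ hτ
              have h2 := hT _ (htn k)
              have h3 := abs_sub τ (tn k)
              linarith
        _ = 2 ^ Fintype.card κ := by rw [Finset.prod_const, Finset.card_univ]
        _ ≤ 2 ^ (D + 2) := pow_le_pow_right₀ (by norm_num) hcard
    have e9 : ∀ k, z k * G (tn k) l / (τ - tn k) = q k * G (tn k) l := fun k => by
      rw [hq]
      ring
    have e10 : ∑ k, z k / (τ - tn k) = ∑ k, q k := by rw [hq]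
    simp_rw [e9]
    rw [e10]
    have e11 : (∏ k, (τ - tn k)) * ∑ k, q k * G (tn k) l = (∏ k, (τ - tn k)) *
        (∑ k, q k * G (tn k) l - (∑ k, q k) * G τ l) +
        (∏ k, (τ - tn k)) * (∑ k, q k) * G τ l := by ring
    rw [e11]
    have e12 : (∏ k, (τ - tn k)) * (∑ k, q k) * G τ l - ((∏ k, (τ - tn k)) *
        (∑ k, q k * G (tn k) l - (∑ k, q k) * G τ l) +
        (∏ k, (τ - tn k)) * (∑ k, q k) * G τ l -
        (∑ k, z k * G (tn k) l) * τ ^ (Fintype.card κ - 1)) =
        (∑ k, z k * G (tn k) l) * τ ^ (Fintype.card κ - 1) - (∏ k, (τ - tn k)) *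
        (∑ k, q k * G (tn k) l - (∑ k, q k) * G τ l) := by ring
    rw [e12]
    refine (abs_sub _ _).trans ?_
    have e13 : |(∑ k, z k * G (tn k) l) * τ ^ (Fintype.card κ - 1)| ≤
        2 * (K * ((D + 3) * ε)) := by
      rw [abs_mul, abs_pow]
      have h1 : |τ| ^ (Fintype.card κ - 1) ≤ 1 := pow_le_one₀ (abs_nonneg _) (hT _ hτ)
      have h2 := hkb l
      have h3 := abs_nonneg (∑ k, z k * G (tn k) l)
      calc _ ≤ |∑ k, z k * G (tn k) l| * 1 := mul_le_mul_of_nonneg_left h1 h3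
        _ ≤ _ := by linarith
    have e14 : |(∏ k, (τ - tn k)) * (∑ k, q k * G (tn k) l - (∑ k, q k) * G τ l)| ≤
        2 ^ (D + 2) * (K * ((D + 2) * (2 / h * (2 * ε)) + d * (2 * (K * ((D + 3) * ε))))) := by
      rw [abs_mul]
      exact mul_le_mul hΩ hφ' (abs_nonneg _) (by positivity)
    refine (add_le_add e13 e14).trans (le_of_eq ?_)
    field_simp
    ring

end Pool.PATHL
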